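import Pool.Agent.Lib_MP_0641b4_lc.Defs
import Pool.Agent.Lib_MP_0641b4_lc.Model

/-!
# Collection and Global Choice do not imply `ω`-DC in Kelley-Morse class theory with urelements

The model `MM` (see `Pool.Agent.Lib_MP_0641b4_lc.Model`): the urelements are the points of an
ordered field `K` in which every small set is bounded (an ultrapower of the rationals). The
objects are the hereditarily small sets over `K` whose set of urelements (in the transitive
closure) is well-ordered by the order of `K`. The classes are the collections of objects which
are invariant under all order automorphisms of `K` fixing pointwise some small well-ordered set.

* Global Choice holds since an automorphism which fixes a set fixes all its members.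
* Collection holds since small well-ordered sets can be moved, over a small well-ordered set,
  to have a well-ordered union.
* `ω`-DC fails since no set contains a strictly descending sequence of urelements.
-/

set_option autoImplicit false

namespace Pool.Agent.Results.MP_0641b4_lc.ModelNotOmegaDC

open Pool.Agent.Lib_MP_0641b4_lc

/-- There is a structure satisfying all axioms of `KMU_R`, Collection and Global Choice, in which
`ω`-DC fails. -/
theorem result : ∃ M : Str, M.KMU ∧ M.Collection ∧ M.GlobalChoice ∧ ¬ M.OmegaDC :=
  ⟨MM, kmu, collection, globalChoice, not_omegaDC⟩

end Pool.Agent.Results.MP_0641b4_lc.ModelNotOmegaDC
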